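import Mathlib

/-! The free product `Γ d` of `d` groups of order two and its Cayley graph, the `d`-regular tree. -/

set_option autoImplicit false

namespace Pool.Agent.Helper10.FT

variable {d : ℕ}

/-- reduced words: no two consecutive letters are equal -/
abbrev W (d : ℕ) : Type := {l : List (Fin d) // l.IsChain (· ≠ ·)}

def nil : W d := ⟨[], by simp⟩

def tau (i : Fin d) : W d → W d
  | ⟨[], _⟩ => ⟨[i], by simp⟩
  | ⟨j :: t, h⟩ => if e : j = i then ⟨t, h.tail⟩ else ⟨i :: j :: t, List.isChain_cons_cons.2 ⟨Ne.symm e, h⟩⟩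

lemma tau_cons (i : Fin d) (t : List (Fin d)) (h : (i :: t).IsChain (· ≠ ·)) :
    tau i ⟨i :: t, h⟩ = ⟨t, h.tail⟩ := by simp [tau]

lemma tau_of (i : Fin d) (t : List (Fin d)) (h : (i :: t).IsChain (· ≠ ·)) :
    tau i ⟨t, h.tail⟩ = ⟨i :: t, h⟩ := by
  cases t with
  | nil => rfl
  | cons j t =>
    have := (List.isChain_cons_cons.1 h).1
    simp [tau, Ne.symm this]

lemma tau_invol (i : Fin d) : Function.Involutive (tau i) := by
  rintro ⟨l, h⟩
  cases l with
  | nil => simp [tau]
  | cons j t =>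
    by_cases e : j = i
    · subst e
      rw [tau_cons, tau_of]
    · have : tau i ⟨j :: t, h⟩ = ⟨i :: j :: t, List.isChain_cons_cons.2 ⟨Ne.symm e, h⟩⟩ := by
        simp [tau, e]
      rw [this, tau_cons]

def T (i : Fin d) : Equiv.Perm (W d) := (tau_invol i).toPerm

lemma T_apply (i : Fin d) (w : W d) : T i w = tau i w := rfl

lemma T_mul (i : Fin d) : T i * T i = 1 := Equiv.ext fun w => tau_invol i w

/-- The free product of `d` groups of order two. -/
abbrev Γ (d : ℕ) : Type := Subgroup.closure (Set.range (T (d := d)))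

def lam (w : W d) : Equiv.Perm (W d) := (w.1.map T).prod

lemma lam_tau (i : Fin d) (w : W d) : lam (tau i w) = T i * lam w := by
  obtain ⟨l, h⟩ := w
  cases l with
  | nil => simp [tau, lam]
  | cons j t =>
    by_cases e : j = i
    · subst e
      rw [tau_cons]
      simp only [lam, List.map_cons, List.prod_cons]
      rw [← mul_assoc, T_mul, one_mul]
    · simp [tau, e, lam]

lemma lam_mem (g : Γ d) (w : W d) : lam (g.1 w) = g.1 * lam w := by
  obtain ⟨g, hg⟩ := g
  simp only
  induction hg using Subgroup.closure_induction generalizing w with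
  | mem x hx => obtain ⟨i, rfl⟩ := hx; exact lam_tau i w
  | one => simp
  | mul x y _ _ hx hy => rw [Equiv.Perm.mul_apply, hx, hy, mul_assoc]
  | inv x _ hx =>
    have := hx (x⁻¹ w)
    rw [← Equiv.Perm.mul_apply, mul_inv_cancel, Equiv.Perm.one_apply] at this
    rw [this, inv_mul_cancel_left]

def toWord (g : Γ d) : List (Fin d) := (g.1 nil).1

lemma toWord_injective : Function.Injective (toWord (d := d)) := fun g h e => by
  have e1 : g.1 nil = h.1 nil := Subtype.ext e
  have a := lam_mem g nil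
  have b := lam_mem h nil
  have c : lam (nil : W d) = 1 := rfl
  rw [c, mul_one] at a b
  exact Subtype.ext (by rw [← a, ← b, e1])

lemma toWord_one : toWord (1 : Γ d) = [] := rfl

def ℓ (i : Fin d) : Γ d := ⟨T i, Subgroup.subset_closure ⟨i, rfl⟩⟩

lemma ℓ_mul (i : Fin d) : ℓ i * ℓ i = 1 := Subtype.ext (T_mul i)

lemma ℓ_inv (i : Fin d) : (ℓ i)⁻¹ = ℓ i := inv_eq_of_mul_eq_one_left (ℓ_mul i)

lemma ℓ_cancel (i : Fin d) (v : Γ d) : ℓ i * (ℓ i * v) = v := by rw [← mul_assoc, ℓ_mul, one_mul]

lemma toWord_mul (i : Fin d) (v : Γ d) : toWord (ℓ i * v) = (tau i (v.1 nil)).1 := rfl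

lemma toWord_ℓ (i : Fin d) : toWord (ℓ i) = [i] := rfl

lemma ℓ_inj : Function.Injective (ℓ (d := d)) := fun x y h => by
  simpa [toWord_ℓ] using congrArg toWord h

lemma ℓ_ne (x : Fin d) : ℓ x ≠ 1 := fun h => by
  simpa [toWord_ℓ, toWord_one] using congrArg toWord h

/-- `v` is a child of `u`. -/
def Ch (u v : Γ d) : Prop := ∃ x, toWord v = x :: toWord u

lemma key (x : Fin d) (v : Γ d) : toWord (ℓ x * v) = x :: toWord v ∨
    toWord v = x :: toWord (ℓ x * v) := by
  rw [toWord_mul]
  unfold toWord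
  rcases v.1 nil with ⟨l, h⟩
  cases l with
  | nil => left; rfl
  | cons j t =>
    by_cases e : j = x
    · subst e; right; rw [tau_cons]
    · left; simp [tau, e]

lemma Ch.eq {u v : Γ d} {x : Fin d} (h : toWord v = x :: toWord u) : v = ℓ x * u := by
  rcases key x v with e | e
  · exfalso
    have h1 := (v.1 nil).2
    have h2 := ((ℓ x * v).1 nil).2
    have e' : ((ℓ x * v).1 nil).1 = x :: x :: toWord u := by
      change toWord (ℓ x * v) = _
      rw [e, h]
    rw [e'] at h2
    exact (List.isChain_cons_cons.1 h2).1 rfl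
  · have : toWord (ℓ x * v) = toWord u := (List.cons.inj (e.symm.trans h)).2
    rw [← toWord_injective this, ℓ_cancel]

def G (d : ℕ) : SimpleGraph (Γ d) where
  Adj u v := ∃ x, v = ℓ x * u
  symm := ⟨fun u v ⟨x, h⟩ => ⟨x, by rw [h, ℓ_cancel]⟩⟩
  loopless := ⟨fun u ⟨x, h⟩ => ℓ_ne x (by simpa using h.symm)⟩

lemma adj_iff {u v : Γ d} : (G d).Adj u v ↔ Ch u v ∨ Ch v u := by
  constructor
  · rintro ⟨x, rfl⟩
    exact (key x u).imp (fun h => ⟨_, h⟩) fun h => ⟨_, h⟩
  · rintro (⟨x, h⟩ | ⟨x, h⟩)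
    · exact ⟨x, Ch.eq h⟩
    · exact (G d).adj_symm ⟨x, Ch.eq h⟩

lemma Ch.uniq {u u' v : Γ d} (h : Ch u v) (h' : Ch u' v) : u = u' := by
  obtain ⟨x, h⟩ := h
  obtain ⟨y, h'⟩ := h'
  exact toWord_injective (List.cons.inj (h.symm.trans h')).2

def norm (g : Γ d) : ℕ := (toWord g).length

lemma norm_one : norm (1 : Γ d) = 0 := rfl

lemma norm_eq_zero {g : Γ d} (h : norm g = 0) : g = 1 :=
  toWord_injective (List.length_eq_zero_iff.1 h)

lemma Ch.norm {u v : Γ d} (h : Ch u v) : norm v = norm u + 1 := by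
  obtain ⟨x, h⟩ := h
  simp [FT.norm, h]

lemma exists_par {v : Γ d} (h : v ≠ 1) : ∃ u, Ch u v := by
  cases e : toWord v with
  | nil => exact absurd (toWord_injective (e.trans toWord_one.symm)) h
  | cons x tl =>
    refine ⟨ℓ x * v, x, ?_⟩
    rcases key x v with e1 | e1
    · exfalso
      have h2 := ((ℓ x * v).1 nil).2
      have e' : ((ℓ x * v).1 nil).1 = x :: x :: tl := by
        change toWord (ℓ x * v) = _
        rw [e1, e]
      rw [e'] at h2
      exact (List.isChain_cons_cons.1 h2).1 rfl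
    · exact e1

lemma ind {P : Γ d → Prop} (h1 : P 1) (h : ∀ u v, Ch u v → P u → P v) (v : Γ d) : P v := by
  induction e : norm v generalizing v with
  | zero => rwa [norm_eq_zero e]
  | succ n ih =>
    obtain ⟨u, hu⟩ := exists_par (v := v) (by rintro rfl; simp [norm_one] at e)
    exact h u v hu (ih u (by have := hu.norm; omega))

lemma bridge {u v : Γ d} (h : Ch u v) : ¬ ((G d).deleteEdges {s(v, u)}).Reachable v u := by
  rintro ⟨p⟩
  have : ∀ (a b : Γ d) (_ : ((G d).deleteEdges {s(v, u)}).Walk a b), toWord v <:+ toWord a →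
      toWord v <:+ toWord b := by
    intro a b q
    induction q with
    | nil => exact id
    | @cons a c b hac _ ih =>
      intro ha
      rw [SimpleGraph.deleteEdges_adj, adj_iff] at hac
      refine ih ?_
      rcases hac.1 with ⟨x, e⟩ | ⟨x, e⟩
      · rw [e]; exact ha.trans (List.suffix_cons _ _)
      · rw [e, List.suffix_cons_iff, ← e] at ha
        refine ha.resolve_left fun e' => hac.2 ?_
        have e1 : v = a := toWord_injective e'
        subst e1
        rw [h.uniq ⟨x, e⟩]
        rfl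
  have := (this _ _ p List.suffix_rfl).length_le
  have e := h.norm
  simp only [FT.norm] at e
  omega

lemma tree : (G d).IsTree := by
  refine ⟨(SimpleGraph.connected_iff_exists_forall_reachable _).2 ⟨1, ind .rfl fun u v h hu =>
    hu.trans (adj_iff.2 (.inl h)).reachable⟩, ?_⟩
  rw [SimpleGraph.isAcyclic_iff_forall_adj_isBridge]
  intro u v h
  rcases adj_iff.1 h with h | h
  · rw [Sym2.eq_swap]; exact bridge h
  · exact bridge h

lemma deg (v : Γ d) : ((G d).neighborSet v).ncard = d := by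
  have : (G d).neighborSet v = Set.range fun x => ℓ x * v := by
    ext u; simp [G, eq_comm]
  rw [this, Set.ncard_range_of_injective fun x y h => ℓ_inj (mul_right_cancel h)]
  simp

lemma norm_le_dist (u : Γ d) : norm u ≤ (G d).dist 1 u := by
  obtain ⟨p, hp⟩ := tree.connected.exists_walk_length_eq_dist 1 u
  have : ∀ (a b : Γ d) (q : (G d).Walk a b), norm b ≤ norm a + q.length := by
    intro a b q
    induction q with
    | nil => simp
    | cons h _ ih =>
      rcases adj_iff.1 h with h | h <;> have := h.norm <;> simp only [SimpleGraph.Walk.length_cons] <;>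
        omega
  simpa [hp, norm_one] using this _ _ p

lemma ball_fin (n : ℕ) : {w : Γ d | norm w ≤ n}.Finite :=
  (List.finite_length_le (Fin d) n).preimage toWord_injective.injOn

def rmul (g : Γ d) : G d ≃g G d where
  toEquiv := Equiv.mulRight g
  map_rel_iff' := by
    intro a b
    simp only [G, Equiv.coe_mulRight, ← mul_assoc, mul_left_inj]

section lift
variable {Q : Type} [Group Q] (σ : Fin d → Q) (hσ : ∀ i, σ i * σ i = 1)

def lf (g : Γ d) : Q := ((toWord g).map σ).prod

include hσ in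
lemma lf_ℓ (i : Fin d) (v : Γ d) : lf σ (ℓ i * v) = σ i * lf σ v := by
  rcases key i v with h | h
  · simp [lf, h]
  · have : lf σ v = σ i * lf σ (ℓ i * v) := by simp [lf, h]
    rw [this, ← mul_assoc, hσ, one_mul]

def lift : Γ d →* Q where
  toFun := lf σ
  map_one' := rfl
  map_mul' g h := by
    revert g
    refine ind ?_ ?_
    · rw [one_mul]; change _ = 1 * _; rw [one_mul]
    · rintro u v ⟨x, e⟩ ih
      rw [Ch.eq e, mul_assoc, lf_ℓ σ hσ, ih, lf_ℓ σ hσ, mul_assoc]

lemma lift_ℓ (i : Fin d) (v : Γ d) : lift σ hσ (ℓ i * v) = σ i * lift σ hσ v := lf_ℓ σ hσ i v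

end lift

lemma quot (D : Finset (Γ d)) : ∃ (Q : Type) (_ : Group Q) (_ : Fintype Q) (π : Γ d →* Q),
    Set.InjOn π D := by
  classical
  obtain ⟨n, hn⟩ := (D.image FT.norm).bddAbove
  let B := {w : Γ d // norm w ≤ n}
  have : Finite B := ball_fin n
  let f : Fin d → B → B := fun i w => if h : norm (ℓ i * w.1) ≤ n then ⟨ℓ i * w.1, h⟩ else w
  have hf : ∀ i, Function.Involutive (f i) := fun i w => by
    by_cases h : norm (ℓ i * w.1) ≤ n
    · have e : f i w = ⟨ℓ i * w.1, h⟩ := dif_pos h
      have h' : norm (ℓ i * (ℓ i * w.1)) ≤ n := by rw [ℓ_cancel]; exact w.2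
      rw [e]
      change (if h : norm (ℓ i * (ℓ i * w.1)) ≤ n then (⟨ℓ i * (ℓ i * w.1), h⟩ : B) else _) = _
      rw [dif_pos h']
      exact Subtype.ext (ℓ_cancel i w.1)
    · have e : f i w = w := dif_neg h
      rw [e, e]
  let σ : Fin d → Equiv.Perm B := fun i => (hf i).toPerm
  have hσ : ∀ i, σ i * σ i = 1 := fun i => Equiv.ext fun w => hf i w
  let o : B := ⟨1, by rw [norm_one]; exact n.zero_le⟩
  have k : ∀ w : Γ d, norm w ≤ n → (lift σ hσ w o).1 = w := by
    refine ind (fun _ => by rw [map_one]; rfl) fun u v h ih hv => ?_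
    have hu : norm u ≤ n := by have := h.norm; omega
    obtain ⟨x, h⟩ := h
    have e := Ch.eq h
    have e1 : lift σ hσ u o = ⟨u, hu⟩ := Subtype.ext (ih hu)
    have h3 : norm (ℓ x * u) ≤ n := by rw [← e]; exact hv
    rw [e, lift_ℓ, Equiv.Perm.mul_apply, e1]
    change ((if h : norm (ℓ x * u) ≤ n then (⟨ℓ x * u, h⟩ : B) else _) : B).1 = _
    rw [dif_pos h3]
  refine ⟨Equiv.Perm B, inferInstance, Fintype.ofFinite _, lift σ hσ, fun x hx y hy h => ?_⟩
  rw [← k x (hn (Finset.mem_image_of_mem _ hx)), h, k y (hn (Finset.mem_image_of_mem _ hy))]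

end Pool.Agent.Helper10.FT
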